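import Pool.Agent.Q113.LP.Main

/-! Meyniel's bound for the connected graphs on `n` vertices without very long paths. -/

set_option autoImplicit false
open scoped Classical
open N6ef48c04
open Pool.Agent.Q113.LP

namespace Pool.Agent.Results.MP_964892_co.LongestPath

theorem bound {V : Type*} [Fintype V] (G : SimpleGraph V) (p : ℕ) (hG : G.Connected)
    (hp : PathsLe G p) (hp1 : 1 ≤ p) :
    (copNumber G : ℝ) ≤ 10 ^ 9 * (p : ℝ) ^ (6 / 7 : ℝ) * (1 + Real.log p) ^ 3 := by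
  have hpr : (1 : ℝ) ≤ p := by exact_mod_cast hp1
  have hp0 : (0 : ℝ) ≤ p := by linarith
  obtain ⟨x, hx⟩ : ∃ x : ℝ, x = (p : ℝ) ^ (1 / 7 : ℝ) := ⟨_, rfl⟩
  have hx1 : 1 ≤ x := by rw [hx]; exact Real.one_le_rpow hpr (by norm_num)
  have hx7 : x ^ 7 = p := by
    rw [hx, ← Real.rpow_natCast, ← Real.rpow_mul hp0]; norm_num
  have hx6 : x ^ 6 = (p : ℝ) ^ (6 / 7 : ℝ) := by
    rw [hx, ← Real.rpow_natCast, ← Real.rpow_mul hp0]; norm_num
  obtain ⟨t, ht⟩ : ∃ t : ℕ, t = ⌈x⌉₊ := ⟨_, rfl⟩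
  have hxt : x ≤ t := by rw [ht]; exact Nat.le_ceil x
  have htx : (t : ℝ) ≤ 2 * x := by
    have := Nat.ceil_lt_add_one (show 0 ≤ x by linarith)
    rw [ht]; linarith
  have ht1 : 1 ≤ t := by
    have : (1 : ℝ) ≤ t := hx1.trans hxt
    exact_mod_cast this
  have hpt : p ≤ t ^ 7 := by
    have : (p : ℝ) ≤ (t : ℝ) ^ 7 := by
      rw [← hx7]
      gcongr
    exact_mod_cast this
  have hs : t < 2 ^ (Nat.log 2 t + 1) := Nat.lt_pow_succ_log_self (by norm_num) t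
  have hb := bound_nat t (Nat.log 2 t + 1) p ht1 (by omega) hs hpt V G hG hp
  have hlog0 : 0 ≤ Real.log p := Real.log_nonneg hpr
  have hsl : ((Nat.log 2 t + 1 : ℕ) : ℝ) ≤ 2 * (1 + Real.log p) := by
    have h1 : 2 ^ Nat.log 2 t ≤ t := Nat.pow_log_le_self 2 (by omega)
    have h2 : (2 : ℝ) ^ Nat.log 2 t ≤ 2 * x := le_trans (by exact_mod_cast h1) htx
    have h3 := Real.log_le_log (by positivity) h2
    rw [Real.log_pow, Real.log_mul (by norm_num) (by linarith), hx,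
      Real.log_rpow (by linarith)] at h3
    have h4 : (0.69 : ℝ) < Real.log 2 := lt_trans (by norm_num) Real.log_two_gt_d9
    have h5 : ((Nat.log 2 t : ℕ) : ℝ) ≤ 1 + Real.log p := by
      by_contra hcon
      push Not at hcon
      have h6 : (1 + Real.log p) * Real.log 2 < (Nat.log 2 t : ℕ) * Real.log 2 :=
        mul_lt_mul_of_pos_right hcon (by linarith)
      nlinarith
    push_cast
    linarith
  have ht6 : (t : ℝ) ^ 6 ≤ 64 * (p : ℝ) ^ (6 / 7 : ℝ) := by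
    rw [← hx6]
    calc (t : ℝ) ^ 6 ≤ (2 * x) ^ 6 := by gcongr
      _ = 64 * x ^ 6 := by ring
  have hb' : (copNumber G : ℝ) ≤ 10 ^ 6 * ((Nat.log 2 t + 1 : ℕ) : ℝ) ^ 3 * (t : ℝ) ^ 6 := by
    exact_mod_cast hb
  have hpos : 0 ≤ (p : ℝ) ^ (6 / 7 : ℝ) := by positivity
  have hpos2 : 0 ≤ (1 + Real.log p) ^ 3 := by positivity
  calc (copNumber G : ℝ) ≤ 10 ^ 6 * ((Nat.log 2 t + 1 : ℕ) : ℝ) ^ 3 * (t : ℝ) ^ 6 := hb'
    _ ≤ 10 ^ 6 * (2 * (1 + Real.log p)) ^ 3 * (64 * (p : ℝ) ^ (6 / 7 : ℝ)) := by gcongr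
    _ = 512000000 * ((p : ℝ) ^ (6 / 7 : ℝ) * (1 + Real.log p) ^ 3) := by ring
    _ ≤ 10 ^ 9 * ((p : ℝ) ^ (6 / 7 : ℝ) * (1 + Real.log p) ^ 3) := by
        gcongr
        norm_num
    _ = 10 ^ 9 * (p : ℝ) ^ (6 / 7 : ℝ) * (1 + Real.log p) ^ 3 := by ring

/-- **Meyniel's bound for graphs without long paths.** If `G` is a connected graph on `n` vertices
and every path of `G` has at most `n ^ (7/12) / (1 + log n) ^ (7/2)` vertices, then the cop number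
of `G` is at most `10 ^ 9 * √n`. -/
theorem result {V : Type*} [Fintype V] (G : SimpleGraph V) (hG : G.Connected)
    (h : ∀ (u v : V) (w : G.Walk u v), w.IsPath →
      (w.support.length : ℝ) * (1 + Real.log (Fintype.card V)) ^ (7 / 2 : ℝ) ≤
        (Fintype.card V : ℝ) ^ (7 / 12 : ℝ)) :
    (copNumber G : ℝ) ≤ 10 ^ 9 * √(Fintype.card V : ℝ) := by
  obtain ⟨y⟩ := hG.nonempty
  have hne : Nonempty V := ⟨y⟩
  obtain ⟨n, hn⟩ : ∃ n : ℝ, n = (Fintype.card V : ℝ) := ⟨_, rfl⟩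
  have hn1 : 1 ≤ n := by rw [hn]; exact_mod_cast Fintype.card_pos
  rw [← hn] at h ⊢
  have hlogn : 0 ≤ Real.log n := Real.log_nonneg hn1
  obtain ⟨Λ, hΛ⟩ : ∃ Λ : ℝ, Λ = 1 + Real.log n := ⟨_, rfl⟩
  rw [← hΛ] at h
  have hΛ1 : 1 ≤ Λ := by rw [hΛ]; linarith
  -- the longest path
  obtain ⟨p, hp⟩ : ∃ p : ℕ, p = ⌊n ^ (7 / 12 : ℝ) / Λ ^ (7 / 2 : ℝ)⌋₊ := ⟨_, rfl⟩
  have hΛp : 0 < Λ ^ (7 / 2 : ℝ) := Real.rpow_pos_of_pos (by linarith) _
  have hle : PathsLe G p := by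
    intro u v w hw
    rw [hp]
    apply Nat.le_floor
    rw [le_div_iff₀ hΛp]
    exact h u v w hw
  have hp1 : 1 ≤ p := by
    have := hle y y SimpleGraph.Walk.nil SimpleGraph.Walk.IsPath.nil
    simpa using this
  have hpr : (1 : ℝ) ≤ p := by exact_mod_cast hp1
  have hpn : (p : ℝ) ≤ n ^ (7 / 12 : ℝ) / Λ ^ (7 / 2 : ℝ) := by
    rw [hp]
    exact Nat.floor_le (by positivity)
  have hpn' : (p : ℝ) ≤ n := by
    calc (p : ℝ) ≤ n ^ (7 / 12 : ℝ) / Λ ^ (7 / 2 : ℝ) := hpn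
      _ ≤ n ^ (7 / 12 : ℝ) := div_le_self (by positivity) (Real.one_le_rpow hΛ1 (by norm_num))
      _ ≤ n ^ (1 : ℝ) := Real.rpow_le_rpow_of_exponent_le hn1 (by norm_num)
      _ = n := Real.rpow_one n
  have h1 := bound G p hG hle hp1
  have h2 : (p : ℝ) ^ (6 / 7 : ℝ) ≤ √n / Λ ^ 3 := by
    calc (p : ℝ) ^ (6 / 7 : ℝ) ≤ (n ^ (7 / 12 : ℝ) / Λ ^ (7 / 2 : ℝ)) ^ (6 / 7 : ℝ) :=
          Real.rpow_le_rpow (by linarith) hpn (by norm_num)
      _ = √n / Λ ^ 3 := by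
          rw [Real.div_rpow (by positivity) hΛp.le, ← Real.rpow_mul (by linarith),
            ← Real.rpow_mul (by linarith), Real.sqrt_eq_rpow]
          norm_num
  have h3 : (1 + Real.log p) ^ 3 ≤ Λ ^ 3 := by
    have h4 : Real.log p ≤ Real.log n := Real.log_le_log (by linarith) hpn'
    have h5 : 0 ≤ Real.log p := Real.log_nonneg hpr
    gcongr
    rw [hΛ]; linarith
  have h6 : 0 ≤ (1 + Real.log p) ^ 3 := by
    have h5 : 0 ≤ Real.log p := Real.log_nonneg hpr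
    positivity
  calc (copNumber G : ℝ) ≤ 10 ^ 9 * (p : ℝ) ^ (6 / 7 : ℝ) * (1 + Real.log p) ^ 3 := h1
    _ ≤ 10 ^ 9 * (√n / Λ ^ 3) * Λ ^ 3 := by gcongr
    _ = 10 ^ 9 * √n := by
        have : Λ ^ 3 ≠ 0 := by positivity
        field_simp

end Pool.Agent.Results.MP_964892_co.LongestPath
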