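import Mathlib
import Pool.Prelude.Def_F_8db9d53c
import Pool.Agent.Q295.CP.Chase

set_option autoImplicit false
open N6ef48c04

namespace Pool.Agent.Results.MP_964892_co.MatroidBasisGraphs

open Set

variable {α : Type}

/-- The basis graph of a matroid: the vertices are the bases, and two bases are adjacent iff one
is obtained from the other by exchanging one element. -/
def basisGraph (M : Matroid α) : SimpleGraph {B : Set α // M.IsBase B} where
  Adj X Y := ∃ x ∈ X.1, ∃ y, y ∉ X.1 ∧ Y.1 = insert y (X.1 \ {x})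
  symm := by
    constructor
    rintro X Y ⟨x, hx, y, hy, h⟩
    refine ⟨y, by rw [h]; exact mem_insert _ _, x, ?_, ?_⟩
    · rw [h]
      rintro (h1 | h1)
      · exact hy (h1 ▸ hx)
      · exact h1.2 rfl
    · rw [h]
      ext z
      simp only [mem_insert_iff, mem_sdiff, mem_singleton_iff]
      constructor
      · intro hz
        by_cases hzx : z = x
        · exact Or.inl hzx
        · exact Or.inr ⟨Or.inr ⟨hz, hzx⟩, fun hh => hy (hh ▸ hz)⟩
      · rintro (rfl | ⟨rfl | h1, h2⟩)
        · exact hx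
        · exact absurd rfl h2
        · exact h1.1
  loopless := by
    constructor
    rintro X ⟨x, hx, y, hy, h⟩
    apply hy
    rw [h]
    exact mem_insert _ _

/-- dual exchange -/
lemma exch' (M : Matroid α) {X Y : Set α} (hX : M.IsBase X) (hY : M.IsBase Y) {y : α}
    (hy : y ∈ Y \ X) : ∃ x ∈ X \ Y, M.IsBase (insert y (X \ {x})) := by
  have h1 := hX.compl_isBase_dual
  have h2 := hY.compl_isBase_dual
  have hyE : y ∈ M.E := hY.subset_ground hy.1
  have h3 : y ∈ (M.E \ X) \ (M.E \ Y) := ⟨⟨hyE, hy.2⟩, fun h => h.2 hy.1⟩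
  obtain ⟨x, hx, h4⟩ := h1.exchange h2 h3
  have hxX : x ∈ X := by
    by_contra hh
    exact hx.2 ⟨hx.1.1, hh⟩
  refine ⟨x, ⟨hxX, hx.1.2⟩, ?_⟩
  have h5 := h4.compl_isBase_of_dual
  have hE : X ⊆ M.E := hX.subset_ground
  have : M.E \ insert x ((M.E \ X) \ {y}) = insert y (X \ {x}) := by
    ext z
    simp only [mem_sdiff, mem_insert_iff, mem_singleton_iff]
    constructor
    · rintro ⟨hz, h⟩
      push Not at h
      by_cases hzy : z = y
      · exact Or.inl hzy
      · right
        refine ⟨?_, h.1⟩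
        by_contra hzX
        exact hzy (h.2 ⟨hz, hzX⟩)
    · rintro (rfl | ⟨h, h'⟩)
      · refine ⟨hyE, ?_⟩
        rintro (hh | hh)
        · exact hy.2 (hh ▸ hxX)
        · exact hh.2 rfl
      · refine ⟨hE h, ?_⟩
        rintro (hh | hh)
        · exact h' hh
        · exact hh.1.2 h
  rw [this] at h5
  exact h5

/-- the elements which are neither loops nor coloops -/
def core (M : Matroid α) : Set α :=
  {a | (∃ B, M.IsBase B ∧ a ∈ B) ∧ ∃ B, M.IsBase B ∧ a ∉ B}

lemma sdiff_core (M : Matroid α) {X Y : Set α} (hX : M.IsBase X) (hY : M.IsBase Y) :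
    X \ Y ⊆ core M := fun _ ha => ⟨⟨X, hX, ha.1⟩, ⟨Y, hY, ha.2⟩⟩

lemma card_inter_core [Finite α] (M : Matroid α) {X Y : Set α} (hX : M.IsBase X)
    (hY : M.IsBase Y) : (X ∩ core M).ncard = (Y ∩ core M).ncard := by
  have key : ∀ {X Y : Set α}, M.IsBase X → M.IsBase Y →
      (X ∩ core M).ncard = (X \ Y).ncard + (X ∩ Y ∩ core M).ncard := by
    intro X Y hX hY
    rw [← ncard_union_eq _ (toFinite _) (toFinite _)]
    · congr 1
      ext z
      simp only [mem_inter_iff, mem_union, mem_sdiff]
      constructor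
      · rintro ⟨h1, h2⟩
        by_cases h3 : z ∈ Y
        · exact Or.inr ⟨⟨h1, h3⟩, h2⟩
        · exact Or.inl ⟨h1, h3⟩
      · rintro (h | h)
        · exact ⟨h.1, sdiff_core M hX hY h⟩
        · exact ⟨h.1.1, h.2⟩
    · rw [disjoint_left]
      rintro z hz hz'
      exact hz.2 hz'.1.2
  rw [key hX hY, key hY hX, hX.ncard_sdiff_comm hY, inter_comm X Y]

lemma card_core_sdiff [Finite α] (M : Matroid α) {X Y : Set α} (hX : M.IsBase X)
    (hY : M.IsBase Y) : (core M \ X).ncard = (core M \ Y).ncard := by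
  have key : ∀ X : Set α, (core M \ X).ncard + (X ∩ core M).ncard = (core M).ncard := by
    intro X
    rw [← ncard_union_eq _ (toFinite _) (toFinite _)]
    · congr 1
      ext z
      simp only [mem_inter_iff, mem_union, mem_sdiff]
      tauto
    · rw [disjoint_left]
      rintro z hz hz'
      exact hz.2 hz'.1
  have h1 := key X
  have h2 := key Y
  have h3 := card_inter_core M hX hY
  omega

open Classical in
/-- the finset of a set -/
noncomputable def fs [Finite α] (S : Set α) : Finset α := (toFinite S).toFinset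

lemma mem_fs [Finite α] (S : Set α) (a : α) : a ∈ fs S ↔ a ∈ S := by simp [fs]

lemma card_fs [Finite α] (S : Set α) : (fs S).card = S.ncard := by
  rw [fs, ncard_eq_toFinset_card S (toFinite S)]

open Classical in
/-- the primal chase -/
lemma primal [Finite α] (M : Matroid α) (X₀ : {B : Set α // M.IsBase B}) :
    copNumber (basisGraph M) ≤ max 1 (X₀.1 ∩ core M).ncard := by
  apply Pool.Agent.Q295.CP.chase (basisGraph M) (fun X Y => fs (Y.1 \ X.1))
    (fun Y => fs (Y.1 ∩ core M)) _ (le_max_left _ _) X₀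
  · intro X Y h
    have h1 : Y.1 \ X.1 = ∅ := by
      ext z
      rw [← mem_fs, h]
      simp
    exact Subtype.ext (Y.2.eq_of_subset_isBase X.2 (sdiff_eq_empty.mp h1)).symm
  · intro X Y z hz
    rw [mem_fs] at hz ⊢
    exact ⟨hz.1, sdiff_core M Y.2 X.2 hz⟩
  · intro Y
    rw [card_fs, card_inter_core M Y.2 X₀.2]
    exact le_max_right _ _
  · intro X Y y hy
    rw [mem_fs] at hy
    obtain ⟨x, hx, h⟩ := exch' M X.2 Y.2 hy
    refine ⟨⟨_, h⟩, Or.inr ⟨x, hx.1, y, hy.2, rfl⟩, ?_⟩
    ext z
    rw [Finset.mem_erase, mem_fs, mem_fs]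
    simp only [mem_sdiff, mem_insert_iff, mem_singleton_iff]
    constructor
    · rintro ⟨h1, h2⟩
      push Not at h2
      exact ⟨h2.1, h1, fun h3 => hx.2 (h2.2 h3 ▸ h1)⟩
    · rintro ⟨h1, h2, h3⟩
      exact ⟨h2, by rintro (h4 | h4); exacts [h1 h4, h3 h4.1]⟩
  · rintro Y Y' ⟨e, he, f, hf, h⟩
    have hfe : f ≠ e := fun hh => hf (hh ▸ he)
    refine ⟨e, ?_, f, ?_, ?_⟩
    · rw [mem_fs]
      refine ⟨he, sdiff_core M Y.2 Y'.2 ⟨he, ?_⟩⟩
      rw [h]
      rintro (h1 | h1)
      · exact hfe h1.symm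
      · exact h1.2 rfl
    · rw [mem_fs]
      exact fun hh => hf hh.1
    · intro X
      by_cases hX : e ∈ X.1 ∧ f ∉ X.1
      · right
        constructor
        · rw [mem_fs]
          exact fun hh => hh.2 hX.1
        · ext z
          rw [Finset.mem_insert, mem_fs, mem_fs, h]
          simp only [mem_sdiff, mem_insert_iff, mem_singleton_iff]
          constructor
          · rintro ⟨h1 | h1, h2⟩
            · exact Or.inl h1
            · exact Or.inr ⟨h1.1, h2⟩
          · rintro (rfl | h1)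
            · exact ⟨Or.inl rfl, hX.2⟩
            · exact ⟨Or.inr ⟨h1.1, fun hh => h1.2 (hh ▸ hX.1)⟩, h1.2⟩
      · left
        rw [card_fs, card_fs]
        by_cases hf' : f ∈ X.1
        · apply ncard_le_ncard _ (toFinite _)
          intro z hz
          rw [h] at hz
          rcases hz.1 with h1 | h1
          · exact absurd (h1 ▸ hf') hz.2
          · exact ⟨h1.1, hz.2⟩
        · have he' : e ∉ X.1 := fun hh => hX ⟨hh, hf'⟩
          have : Y'.1 \ X.1 ⊆ insert f ((Y.1 \ X.1) \ {e}) := by
            intro z hz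
            rw [h] at hz
            rcases hz.1 with h1 | h1
            · exact Or.inl h1
            · exact Or.inr ⟨⟨h1.1, hz.2⟩, h1.2⟩
          calc (Y'.1 \ X.1).ncard ≤ (insert f ((Y.1 \ X.1) \ {e})).ncard :=
                ncard_le_ncard this (toFinite _)
            _ ≤ ((Y.1 \ X.1) \ {e}).ncard + 1 := ncard_insert_le _ _
            _ = (Y.1 \ X.1).ncard := ncard_sdiff_singleton_add_one ⟨he, he'⟩ (toFinite _)

open Classical in
/-- the dual chase -/
lemma dual [Finite α] (M : Matroid α) (X₀ : {B : Set α // M.IsBase B}) :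
    copNumber (basisGraph M) ≤ max 1 (core M \ X₀.1).ncard := by
  apply Pool.Agent.Q295.CP.chase (basisGraph M) (fun X Y => fs (X.1 \ Y.1))
    (fun Y => fs (core M \ Y.1)) _ (le_max_left _ _) X₀
  · intro X Y h
    have h1 : X.1 \ Y.1 = ∅ := by
      ext z
      rw [← mem_fs, h]
      simp
    exact Subtype.ext (X.2.eq_of_subset_isBase Y.2 (sdiff_eq_empty.mp h1))
  · intro X Y z hz
    rw [mem_fs] at hz ⊢
    exact ⟨sdiff_core M X.2 Y.2 hz, hz.2⟩
  · intro Y
    rw [card_fs, card_core_sdiff M Y.2 X₀.2]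
    exact le_max_right _ _
  · intro X Y y hy
    rw [mem_fs] at hy
    obtain ⟨x, hx, h⟩ := X.2.exchange Y.2 hy
    refine ⟨⟨_, h⟩, Or.inr ⟨y, hy.1, x, hx.2, rfl⟩, ?_⟩
    ext z
    rw [Finset.mem_erase, mem_fs, mem_fs]
    simp only [mem_sdiff, mem_insert_iff, mem_singleton_iff]
    constructor
    · rintro ⟨h1 | h1, h2⟩
      · exact absurd (h1 ▸ hx.1) h2
      · exact ⟨h1.2, h1.1, h2⟩
    · rintro ⟨h1, h2, h3⟩
      exact ⟨Or.inr ⟨h2, h1⟩, h3⟩
  · rintro Y Y' ⟨e, he, f, hf, h⟩
    have hfe : f ≠ e := fun hh => hf (hh ▸ he)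
    refine ⟨f, ?_, e, ?_, ?_⟩
    · rw [mem_fs]
      refine ⟨sdiff_core M Y'.2 Y.2 ⟨?_, hf⟩, hf⟩
      rw [h]
      exact mem_insert _ _
    · rw [mem_fs]
      exact fun hh => hh.2 he
    · intro X
      by_cases hX : e ∈ X.1 ∧ f ∉ X.1
      · right
        constructor
        · rw [mem_fs]
          exact fun hh => hX.2 hh.1
        · ext z
          rw [Finset.mem_insert, mem_fs, mem_fs, h]
          simp only [mem_sdiff, mem_insert_iff, mem_singleton_iff]
          constructor
          · rintro ⟨h1, h2⟩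
            by_cases hze : z = e
            · exact Or.inl hze
            · exact Or.inr ⟨h1, fun h3 => h2 (Or.inr ⟨h3, hze⟩)⟩
          · rintro (rfl | h1)
            · refine ⟨hX.1, ?_⟩
              rintro (h2 | h2)
              · exact hfe h2.symm
              · exact h2.2 rfl
            · refine ⟨h1.1, ?_⟩
              rintro (h2 | h2)
              · exact hX.2 (h2 ▸ h1.1)
              · exact h1.2 h2.1
      · left
        rw [card_fs, card_fs]
        by_cases he' : e ∈ X.1
        · have hf' : f ∈ X.1 := by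
            by_contra hh
            exact hX ⟨he', hh⟩
          have : X.1 \ Y'.1 ⊆ insert e ((X.1 \ Y.1) \ {f}) := by
            intro z hz
            rw [h] at hz
            by_cases hze : z = e
            · exact Or.inl hze
            · refine Or.inr ⟨⟨hz.1, fun h3 => hz.2 (Or.inr ⟨h3, hze⟩)⟩, fun h3 => hz.2 (Or.inl h3)⟩
          calc (X.1 \ Y'.1).ncard ≤ (insert e ((X.1 \ Y.1) \ {f})).ncard :=
                ncard_le_ncard this (toFinite _)
            _ ≤ ((X.1 \ Y.1) \ {f}).ncard + 1 := ncard_insert_le _ _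
            _ = (X.1 \ Y.1).ncard := ncard_sdiff_singleton_add_one ⟨hf', hf⟩ (toFinite _)
        · apply ncard_le_ncard _ (toFinite _)
          intro z hz
          rw [h] at hz
          refine ⟨hz.1, fun h3 => hz.2 (Or.inr ⟨h3, ?_⟩)⟩
          rintro rfl
          exact he' hz.1

open Classical in
/-- A matroid whose base `B` has `k₁` elements which are not coloops, and with `k₂` elements outside
`B` which are not loops, has at least `k₁ k₂ / 2` bases. -/
lemma count [Finite α] (M : Matroid α) {B : Set α} (hB : M.IsBase B) :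
    (B ∩ core M).ncard * (core M \ B).ncard ≤ 2 * Nat.card {Z : Set α // M.IsBase Z} := by
  have hyf : ∀ x, ∃ y, x ∈ B ∩ core M → y ∉ B ∧ M.IsBase (insert y (B \ {x})) := by
    intro x
    by_cases hx : x ∈ B ∩ core M
    · obtain ⟨-, Z, hZ, hxZ⟩ := hx.2
      obtain ⟨y, hy, h⟩ := hB.exchange hZ ⟨hx.1, hxZ⟩
      exact ⟨y, fun _ => ⟨hy.2, h⟩⟩
    · exact ⟨x, fun h => absurd h hx⟩
  have hxf : ∀ y, ∃ x, y ∈ core M \ B → x ∈ B ∧ M.IsBase (insert y (B \ {x})) := by
    intro y
    by_cases hy : y ∈ core M \ B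
    · obtain ⟨⟨Z, hZ, hyZ⟩, -⟩ := hy.1
      obtain ⟨x, hx, h⟩ := exch' M hB hZ ⟨hyZ, hy.2⟩
      exact ⟨x, fun _ => ⟨hx.1, h⟩⟩
    · exact ⟨y, fun h => absurd h hy⟩
  choose yf hyf using hyf
  choose xf hxf using hxf
  let φ : α × α → Set α := fun p =>
    if M.IsBase (insert p.2 (B \ {p.1})) then insert p.2 (B \ {p.1})
    else insert (yf p.1) (insert p.2 (B \ {xf p.2}) \ {p.1})
  let s : Finset (α × α) := fs (B ∩ core M) ×ˢ fs (core M \ B)
  have hs : ∀ p ∈ s, p.1 ∈ B ∩ core M ∧ p.2 ∈ core M \ B := by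
    intro p hp
    rw [Finset.mem_product, mem_fs, mem_fs] at hp
    exact hp
  -- the three facts about `φ`
  have hne : ∀ p ∈ s, ¬ M.IsBase (insert p.2 (B \ {p.1})) →
      p.1 ≠ xf p.2 ∧ p.2 ≠ yf p.1 := by
    intro p hp h
    obtain ⟨h1, h2⟩ := hs p hp
    constructor
    · intro hh
      apply h
      rw [hh]
      exact (hxf p.2 h2).2
    · intro hh
      apply h
      rw [hh]
      exact (hyf p.1 h1).2
  have hbase : ∀ p ∈ s, M.IsBase (φ p) := by
    intro p hp
    obtain ⟨h1, h2⟩ := hs p hp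
    by_cases h : M.IsBase (insert p.2 (B \ {p.1}))
    · simp only [φ, if_pos h]
      exact h
    · simp only [φ, if_neg h]
      obtain ⟨n1, n2⟩ := hne p hp h
      obtain ⟨a1, a2⟩ := hyf p.1 h1
      obtain ⟨b1, b2⟩ := hxf p.2 h2
      have hpB' : p.1 ∈ insert p.2 (B \ {xf p.2}) := Or.inr ⟨h1.1, n1⟩
      have hpB'' : p.1 ∉ insert (yf p.1) (B \ {p.1}) := by
        rintro (hh | hh)
        · exact a1 (hh ▸ h1.1)
        · exact hh.2 rfl
      obtain ⟨z, hz, hz'⟩ := b2.exchange a2 ⟨hpB', hpB''⟩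
      rcases hz.1 with hzz | hzz
      · rw [← hzz]
        exact hz'
      · exfalso
        have hzx : z = xf p.2 := by
          by_contra hh
          exact hz.2 (Or.inr ⟨hzz.1, hh⟩)
        apply h
        have : insert z (insert p.2 (B \ {xf p.2}) \ {p.1}) = insert p.2 (B \ {p.1}) := by
          ext w
          simp only [mem_insert_iff, mem_sdiff, mem_singleton_iff]
          constructor
          · rintro (hw | ⟨hw | hw, hw'⟩)
            · right
              rw [hw]
              exact ⟨hzz.1, hzz.2⟩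
            · exact Or.inl hw
            · exact Or.inr ⟨hw.1, hw'⟩
          · rintro (hw | ⟨hw, hw'⟩)
            · right
              refine ⟨Or.inl hw, ?_⟩
              rintro rfl
              exact h2.2 (hw ▸ h1.1)
            · by_cases hwx : w = xf p.2
              · left
                rw [hwx, hzx]
              · exact Or.inr ⟨Or.inr ⟨hw, hwx⟩, hw'⟩
        rw [this] at hz'
        exact hz'
  have hBZ : ∀ p ∈ s, p.1 ∈ B \ φ p ∧ B \ φ p ⊆ {p.1, xf p.2} := by
    intro p hp
    obtain ⟨h1, h2⟩ := hs p hp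
    have hp12 : p.1 ≠ p.2 := fun hh => h2.2 (hh ▸ h1.1)
    by_cases h : M.IsBase (insert p.2 (B \ {p.1}))
    · simp only [φ, if_pos h]
      constructor
      · refine ⟨h1.1, ?_⟩
        rintro (hh | hh)
        · exact hp12 hh
        · exact hh.2 rfl
      · rintro w ⟨hw, hw'⟩
        left
        by_contra hh
        exact hw' (Or.inr ⟨hw, hh⟩)
    · simp only [φ, if_neg h]
      obtain ⟨a1, a2⟩ := hyf p.1 h1
      constructor
      · refine ⟨h1.1, ?_⟩
        rintro (hh | hh)
        · exact a1 (hh ▸ h1.1)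
        · exact hh.2 rfl
      · rintro w ⟨hw, hw'⟩
        by_contra hh
        simp only [mem_insert_iff, mem_singleton_iff, not_or] at hh
        exact hw' (Or.inr ⟨Or.inr ⟨hw, hh.2⟩, hh.1⟩)
  have hZB : ∀ p ∈ s, p.2 ∈ φ p \ B ∧
      (φ p \ B ⊆ {p.2} ∨ (p.2 ≠ yf p.1 ∧ φ p \ B ⊆ {p.2, yf p.1})) := by
    intro p hp
    obtain ⟨h1, h2⟩ := hs p hp
    have hp12 : p.2 ≠ p.1 := fun hh => h2.2 (hh ▸ h1.1)
    by_cases h : M.IsBase (insert p.2 (B \ {p.1}))
    · simp only [φ, if_pos h]
      constructor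
      · exact ⟨Or.inl rfl, h2.2⟩
      · left
        rintro w ⟨hw | hw, hw'⟩
        · exact hw
        · exact absurd hw.1 hw'
    · simp only [φ, if_neg h]
      constructor
      · exact ⟨Or.inr ⟨Or.inl rfl, hp12⟩, h2.2⟩
      · right
        refine ⟨(hne p hp h).2, ?_⟩
        rintro w ⟨hw | ⟨hw | hw, -⟩, hw'⟩
        · exact Or.inr hw
        · exact Or.inl hw
        · exact absurd hw.1 hw'
  have hfib : ∀ Z ∈ s.image φ, (s.filter (fun p => φ p = Z)).card ≤ 2 := by
    intro Z hZ
    rw [Finset.mem_image] at hZ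
    obtain ⟨p₀, hp₀, hpZ⟩ := hZ
    have hc2 : (B \ Z).ncard ≤ 2 := by
      rw [← hpZ]
      refine (ncard_le_ncard (hBZ p₀ hp₀).2 (toFinite _)).trans ?_
      refine (ncard_insert_le _ _).trans ?_
      rw [ncard_singleton]
    refine le_trans ?_ hc2
    rw [← card_fs]
    apply Finset.card_le_card_of_injOn Prod.fst
    · intro p hp
      rw [Finset.mem_coe, Finset.mem_filter] at hp
      rw [Finset.mem_coe, mem_fs, ← hp.2]
      exact (hBZ p hp.1).1
    · intro p hp q hq hpq
      rw [Finset.mem_coe, Finset.mem_filter] at hp hq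
      obtain ⟨p1, p2⟩ := hZB p hp.1
      obtain ⟨q1, q2⟩ := hZB q hq.1
      rw [hp.2] at p1 p2
      rw [hq.2] at q1 q2
      rw [← hpq] at q2
      refine Prod.ext hpq ?_
      rcases p2 with p2 | p2
      · exact (p2 q1).symm
      · rcases q2 with q2 | q2
        · exact q2 p1
        · rcases q2.2 p1 with h | h
          · exact h
          · exact absurd h p2.1
  have h1 := Finset.card_le_mul_card_image s 2 hfib
  have h2 : (s.image φ).card ≤ Nat.card {Z : Set α // M.IsBase Z} := by
    have e1 : Nat.card {Z : Set α // M.IsBase Z} = ({Z : Set α | M.IsBase Z}).ncard := rfl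
    rw [e1, ← ncard_coe_finset]
    apply ncard_le_ncard _ (toFinite _)
    intro Z hZ
    rw [Finset.mem_coe, Finset.mem_image] at hZ
    obtain ⟨p, hp, rfl⟩ := hZ
    exact hbase p hp
  have h3 : s.card = (B ∩ core M).ncard * (core M \ B).ncard := by
    rw [Finset.card_product, card_fs, card_fs]
  rw [← h3]
  exact h1.trans (Nat.mul_le_mul_left 2 h2)

/-- **Meyniel's bound for the basis graphs of matroids.** For every matroid on a finite type, the
cop number of its basis graph is at most the rank and at most the corank (if these are not `0`),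
and it is at most `√(2 n)`, where `n` is the number of bases, i.e. of vertices. -/
theorem result {α : Type} [Finite α] (M : Matroid α) :
    (∀ B, M.IsBase B → copNumber (basisGraph M) ≤ max 1 (min B.ncard (M.E \ B).ncard)) ∧
    (copNumber (basisGraph M) : ℝ) ≤ √2 * √(Nat.card {B : Set α // M.IsBase B} : ℝ) := by
  constructor
  · intro B hB
    have h1 := primal M ⟨B, hB⟩
    have h2 := dual M ⟨B, hB⟩
    have h3 : (B ∩ core M).ncard ≤ B.ncard := ncard_le_ncard inter_subset_left (toFinite _)
    have h4 : (core M \ B).ncard ≤ (M.E \ B).ncard := by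
      apply ncard_le_ncard _ (toFinite _)
      rintro z ⟨⟨⟨Z, hZ, hz⟩, -⟩, hz'⟩
      exact ⟨hZ.subset_ground hz, hz'⟩
    simp only at h1 h2
    omega
  · obtain ⟨B, hB⟩ := M.exists_isBase
    have h1 := primal M ⟨B, hB⟩
    have h2 := dual M ⟨B, hB⟩
    have h3 := count M hB
    have hn : 1 ≤ Nat.card {B : Set α // M.IsBase B} := by
      have : Nonempty {B : Set α // M.IsBase B} := ⟨⟨B, hB⟩⟩
      exact Nat.one_le_iff_ne_zero.mpr Nat.card_pos.ne'
    simp only at h1 h2
    have hsq : copNumber (basisGraph M) ^ 2 ≤ 2 * Nat.card {B : Set α // M.IsBase B} := by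
      by_cases hc : copNumber (basisGraph M) ≤ 1
      · calc copNumber (basisGraph M) ^ 2 ≤ 1 ^ 2 := Nat.pow_le_pow_left hc 2
          _ ≤ _ := by omega
      · have e1 : copNumber (basisGraph M) ≤ (B ∩ core M).ncard := by omega
        have e2 : copNumber (basisGraph M) ≤ (core M \ B).ncard := by omega
        calc copNumber (basisGraph M) ^ 2
            = copNumber (basisGraph M) * copNumber (basisGraph M) := sq _
          _ ≤ (B ∩ core M).ncard * (core M \ B).ncard := Nat.mul_le_mul e1 e2
          _ ≤ _ := h3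
    rw [← Real.sqrt_mul (by norm_num)]
    apply Real.le_sqrt_of_sq_le
    exact_mod_cast hsq

end Pool.Agent.Results.MP_964892_co.MatroidBasisGraphs
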