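import Pool.Agent.Q277.CopProducts
import Pool.Agent.H594R2.Mey2.Graph

set_option autoImplicit false
open N6ef48c04

/-!
# Meyniel's conjecture for products of two connected graphs

Let `G` and `H` be connected graphs on `a` and `b` vertices, and `D` a subgraph of `G`. The product
`mixProd G D H` (`Pool/Agent/Q277/CopProducts.lean`) is the Cartesian product of `G` and `H`
together with the diagonal edges over the edges of `D`; it is the Cartesian product if `D` has no
edges and the strong product if `D = G`. We show that its cop number satisfies Meyniel's bound with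
the constant `162` as soon as neither factor is extremely small compared with the other one,
`a ≥ (log b + 1) ^ 2` and `b ≥ (log a + 1) ^ 2`. Nothing else is assumed about `G` and `H`.

Proof. `c(mixProd G D H) ≤ c(G) + c(H)` (for `D = ⊥` this is a theorem of Tošić): cops whose first
coordinate is that of the robber are recruited one after another, either by `c(G)` cops playing
the game on `G` with the first coordinates, or, if the robber only moves in `H`, by a further cop;
`c(H)` such cops then force the robber to move in `G` only, and `c(G)` other cops catch him. The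
rest is the bound `c(G) ≤ 81 √n (log n + 1)` of the starting files, for both factors.
-/

namespace Pool.Agent.Results.MP_964892_co.ProductGraphs

open Pool.Agent.Q277.CP

/-- Let `G`, `H` be finite connected graphs and `D ≤ G`. The product `mixProd G D H` (Cartesian
for `D = ⊥`, strong for `D = G`) is connected and has cop number at most
`81 √|V| (log |V| + 1) + 81 √|W| (log |W| + 1)`. If `|V| ≥ (log |W| + 1) ^ 2` and
`|W| ≥ (log |V| + 1) ^ 2`, its cop number is at most `162 √n`, where `n = |V| |W|` is its number of
vertices; in particular this holds for the Cartesian product `G □ H`. -/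
theorem result {V W : Type} [Fintype V] [Fintype W] (G D : SimpleGraph V) (H : SimpleGraph W)
    (hD : D ≤ G) (hG : G.Connected) (hH : H.Connected) :
    (mixProd G D H).Connected ∧
    (copNumber (mixProd G D H) : ℝ) ≤
      81 * √(Fintype.card V : ℝ) * (Real.log (Fintype.card V) + 1) +
      81 * √(Fintype.card W : ℝ) * (Real.log (Fintype.card W) + 1) ∧
    ((Real.log (Fintype.card W) + 1) ^ 2 ≤ Fintype.card V →
      (Real.log (Fintype.card V) + 1) ^ 2 ≤ Fintype.card W →
      (copNumber (mixProd G D H) : ℝ) ≤ 162 * √(Fintype.card (V × W) : ℝ) ∧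
      (copNumber (G □ H) : ℝ) ≤ 162 * √(Fintype.card (V × W) : ℝ)) := by
  have key : ∀ D' : SimpleGraph V, D' ≤ G → (copNumber (mixProd G D' H) : ℝ) ≤
      81 * √(Fintype.card V : ℝ) * (Real.log (Fintype.card V) + 1) +
      81 * √(Fintype.card W : ℝ) * (Real.log (Fintype.card W) + 1) := by
    intro D' hD'
    have h1 : (copNumber (mixProd G D' H) : ℝ) ≤ copNumber G + copNumber H := by
      exact_mod_cast copNumber_mixProd_le hD' hG hH
    have h2 := Pool.Agent.H594R2.Mey2.graph_bound G hG
    have h3 := Pool.Agent.H594R2.Mey2.graph_bound H hH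
    linarith
  refine ⟨?_, key D hD, fun hV hW => ?_⟩
  · refine SimpleGraph.Connected.mono ?_ (hG.boxProd hH)
    intro p q h
    rw [SimpleGraph.boxProd_adj] at h
    rcases h with h | ⟨h1, h2⟩
    · exact Or.inr (Or.inl h)
    · exact Or.inl ⟨h2, h1⟩
  have hn : √(Fintype.card (V × W) : ℝ) = √(Fintype.card V : ℝ) * √(Fintype.card W : ℝ) := by
    rw [Fintype.card_prod, Nat.cast_mul, Real.sqrt_mul (Nat.cast_nonneg _)]
  have hlV : Real.log (Fintype.card V) + 1 ≤ √(Fintype.card W : ℝ) := Real.le_sqrt_of_sq_le hW
  have hlW : Real.log (Fintype.card W) + 1 ≤ √(Fintype.card V : ℝ) := Real.le_sqrt_of_sq_le hV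
  have h4 : √(Fintype.card V : ℝ) * (Real.log (Fintype.card V) + 1) ≤
      √(Fintype.card V : ℝ) * √(Fintype.card W : ℝ) :=
    mul_le_mul_of_nonneg_left hlV (Real.sqrt_nonneg _)
  have h5 : √(Fintype.card W : ℝ) * (Real.log (Fintype.card W) + 1) ≤
      √(Fintype.card W : ℝ) * √(Fintype.card V : ℝ) :=
    mul_le_mul_of_nonneg_left hlW (Real.sqrt_nonneg _)
  have fin : ∀ D' : SimpleGraph V, D' ≤ G →
      (copNumber (mixProd G D' H) : ℝ) ≤ 162 * √(Fintype.card (V × W) : ℝ) := by
    intro D' hD'
    have h1 := key D' hD'
    rw [hn]
    nlinarith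
  refine ⟨fin D hD, ?_⟩
  have h6 := fin ⊥ bot_le
  rwa [mixProd_bot] at h6

end Pool.Agent.Results.MP_964892_co.ProductGraphs
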