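import Pool.Agent.Q277.CopRetracts
import Pool.Agent.H594R2.Mey2.Graph

set_option autoImplicit false
open N6ef48c04

/-!
# Meyniel's conjecture for graphs which can be dismantled to a somewhat smaller graph

`Chain t G H` (`Pool/Agent/Q277/CopRetracts.lean`): `H` is obtained from `G` by finitely many steps
from a graph `G₁` to a retract `G₂` of it (the retraction `r` may contract edges), where in each
step `t` cops on `G₁` can catch a robber who only makes moves which a cop placed at his shadow
`s (r x)` cannot answer by catching him. Such a robber never enters the retract. Examples, with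
`t = 1`: deleting a vertex `v` with `N(v) ⊆ N[u]`, contracting all the modules of a modular
partition at once, and retracts `G₂` such that the components of `G₁ - G₂` are trees.

We show `c(G) ≤ max (c(H)) (t + 1)` for all such chains, and deduce Meyniel's bound for all
connected `G` which have a chain to a graph with at most `n / (log n + 1) ^ 2` vertices. The second
part is the special case of modular partitions (for instance lexicographic products and blow-ups).

Proof. Play a winning strategy of `H` against the shadow of the robber. As soon as a cop is at the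
shadow, he stays there for ever; from then on, the robber can only make moves which this cop cannot
answer by catching him, and `t` other cops catch him. The rest is the bound
`c(H) ≤ 81 √m (log m + 1)` of the starting files.
-/

namespace Pool.Agent.Results.MP_964892_co.RetractChains

open Pool.Agent.Q277.CP

theorem bound {V W : Type} [Fintype V] [Fintype W] (G : SimpleGraph V) (hG : G.Connected)
    (t : ℕ) (H : SimpleGraph W) (h : Chain t G H) :
    H.Connected ∧ copNumber G ≤ max (copNumber H) (t + 1) ∧
    (copNumber G : ℝ) ≤
      max (81 * √(Fintype.card W : ℝ) * (Real.log (Fintype.card W) + 1)) (t + 1) ∧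
    ((Fintype.card W : ℝ) * (Real.log (Fintype.card W) + 1) ^ 2 ≤ Fintype.card V →
      (t : ℝ) + 1 ≤ 81 * √(Fintype.card V : ℝ) →
      (copNumber G : ℝ) ≤ 81 * √(Fintype.card V : ℝ)) := by
  obtain ⟨hH, h1⟩ := copNumber_chain h hG
  have h2 := Pool.Agent.H594R2.Mey2.graph_bound H hH
  have h3 : (copNumber G : ℝ) ≤ max (copNumber H : ℝ) (t + 1) := by exact_mod_cast h1
  have h4 : (copNumber G : ℝ) ≤
      max (81 * √(Fintype.card W : ℝ) * (Real.log (Fintype.card W) + 1)) (t + 1) :=
    h3.trans (max_le_max h2 le_rfl)
  refine ⟨hH, h1, h4, fun h5 h6 => h4.trans (max_le ?_ h6)⟩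
  have h7 : √(Fintype.card W : ℝ) * (Real.log (Fintype.card W) + 1) ≤
      √(Fintype.card V : ℝ) := by
    apply Real.le_sqrt_of_sq_le
    rw [mul_pow, Real.sq_sqrt (Nat.cast_nonneg _)]
    exact h5
  linarith

/-- Let `G` be a finite connected graph on `V`.

(1) If `H`, on `W`, is obtained from `G` by a chain of retracts in which `t` cops suffice to catch
a robber who evades a cop at his shadow, then `c(G) ≤ max (c(H)) (t + 1)` and
`c(G) ≤ max (81 √|W| (log |W| + 1)) (t + 1)`; Meyniel's bound `c(G) ≤ 81 √|V|` holds if
`|W| (log |W| + 1) ^ 2 ≤ |V|` and `t + 1 ≤ 81 √|V|`.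

(2) Let `π` be a map from `V` onto the vertex set of a graph `H` with at least two vertices such
that any `x`, `y` with `π x ≠ π y` are adjacent in `G` if and only if `π x`, `π y` are adjacent in
`H` (so the fibres of `π` are modules of `G` and `H` is the quotient). Then
`c(G) ≤ max (c(H)) 2`, and Meyniel's bound `c(G) ≤ 81 √|V|` holds if
`|Q| (log |Q| + 1) ^ 2 ≤ |V|`. -/
theorem result {V : Type} [Fintype V] (G : SimpleGraph V) (hG : G.Connected) :
    (∀ (W : Type) [Fintype W] (H : SimpleGraph W) (t : ℕ), Chain t G H →
      H.Connected ∧ copNumber G ≤ max (copNumber H) (t + 1) ∧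
      (copNumber G : ℝ) ≤
        max (81 * √(Fintype.card W : ℝ) * (Real.log (Fintype.card W) + 1)) (t + 1) ∧
      ((Fintype.card W : ℝ) * (Real.log (Fintype.card W) + 1) ^ 2 ≤ Fintype.card V →
        (t : ℝ) + 1 ≤ 81 * √(Fintype.card V : ℝ) →
        (copNumber G : ℝ) ≤ 81 * √(Fintype.card V : ℝ))) ∧
    (∀ (Q : Type) [Fintype Q] [Nontrivial Q] (H : SimpleGraph Q) (π : V → Q),
      Function.Surjective π → (∀ x y, π x ≠ π y → (G.Adj x y ↔ H.Adj (π x) (π y))) →
      copNumber G ≤ max (copNumber H) 2 ∧
      ((Fintype.card Q : ℝ) * (Real.log (Fintype.card Q) + 1) ^ 2 ≤ Fintype.card V →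
        (copNumber G : ℝ) ≤ 81 * √(Fintype.card V : ℝ))) := by
  refine ⟨fun W _ H t h => bound G hG t H h, fun Q _ _ H π hπ hmod => ?_⟩
  obtain ⟨_, h1, _, h2⟩ := bound G hG 1 H (Chain.head (fold_modules hG π hπ hmod) (Chain.refl H))
  refine ⟨h1, fun h3 => h2 h3 ?_⟩
  have : Nonempty V := hG.nonempty
  have hn1 : (1 : ℝ) ≤ Fintype.card V := by exact_mod_cast Fintype.card_pos
  have hs1 : 1 ≤ √(Fintype.card V : ℝ) := Real.one_le_sqrt.2 hn1
  push_cast
  linarith

end Pool.Agent.Results.MP_964892_co.RetractChains
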